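import Mathlib
import Pool.Agent.L5helper22.Trap.U
import Pool.Agent.Y235.JC.M3

/-!
# The trapezoid conjecture and functions generating a power of the different

Let `F, G` be a pair of polynomials as in the trapezoid conjecture (conditions 1, 4 and 5), let
`P, Q` be `F, G` in one of the two orders and let `M` be a field between `ℂ(P, Q)` and `ℂ(x, y)`,
different from `ℂ(P, Q)` or equal to `ℂ(x, y)`. Regard `M` as the function field of a curve over
`ℂ(P)`. If some function `f` on this curve is finite at all places where `Q` is finite, vanishes at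
such a place exactly when the place is ramified over `ℂ(P, Q)`, and has the same leading coefficients
(up to constants) at all poles of `Q` - for instance if `Q` has only one pole - then `[F, G] = 0`.

The criterion for Keller maps from which this is deduced is, for polynomials in normal form, in the
starting library (`Pool.Agent.Y235.JC.U5`, not handed in before).
-/

set_option autoImplicit false

open MvPolynomial

namespace Pool.Agent.Results.MP_2d59ee_ag.DifferentGenerator

/-- The Newton polygon `N⁰(F)` of `F` is the trapezoid `T_{m,n}`. -/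
def HasTrapezoid (F : MvPolynomial (Fin 2) ℂ) (m n : ℕ) : Prop :=
  convexHull ℝ (insert ((0:ℝ), (0:ℝ))
    ((fun d : Fin 2 →₀ ℕ => ((d 0 : ℝ), (d 1 : ℝ))) '' (↑F.support : Set (Fin 2 →₀ ℕ))))
      = {p : ℝ × ℝ | 0 ≤ p.2 ∧ p.2 ≤ (n : ℝ) ∧ 0 ≤ p.1 ∧ p.1 ≤ (m : ℝ) + (n : ℝ) - p.2}

section places

variable {L : Type} [Field L] [Algebra ℂ L]

/-- The valuation ring `O` of `M` contains the elements of `M` which lie in the field `ℂ(p)`. -/
def Over (p : L) {M : IntermediateField ℂ L} (O : ValuationSubring M) : Prop :=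
  ∀ z : M, (z : L) ∈ IntermediateField.adjoin ℂ {p} → z ∈ O

/-- The valuation ring `O` of `M` is ramified over `ℂ(p, q)`: every element of `M` which lies in
`ℂ(p, q)` and in the maximal ideal of `O` is a product of two elements of the maximal ideal. -/
def Ramified (p q : L) {M : IntermediateField ℂ L} (O : ValuationSubring M) : Prop :=
  ∀ x : M, (x : L) ∈ IntermediateField.adjoin ℂ {p, q} → x ∈ O.nonunits →
    ∃ y ∈ O.nonunits, ∃ z ∈ O.nonunits, x = y * z

/-- The leading coefficients of `f` with respect to `q` at `O₁` and `O₂` agree up to constants: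
whenever a product `f ^ r * q ^ s`, `r > 0`, has at `O₁` a value `ρ ≠ 0` in `ℂ(p)`, it has at `O₂` a
value which is a nonzero complex number times `ρ`. -/
def SameLeading (p : L) {M : IntermediateField ℂ L} (f q : M) (O₁ O₂ : ValuationSubring M) : Prop :=
  ∀ (r : ℕ) (s : ℤ) (ρ : M), 0 < r → ρ ≠ 0 → (ρ : L) ∈ IntermediateField.adjoin ℂ {p} →
    f ^ r * q ^ s - ρ ∈ O₁.nonunits →
      ∃ κ : ℂ, κ ≠ 0 ∧ f ^ r * q ^ s - algebraMap ℂ M κ * ρ ∈ O₂.nonunits

/-- The function `f` on the curve with function field `M` over `ℂ(p)` is finite at all places where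
`q` is finite, and it vanishes at such a place exactly when the place is ramified over `ℂ(p, q)`. -/
def ZerosRamified (p : L) {M : IntermediateField ℂ L} (f q : M) : Prop :=
  ∀ O : ValuationSubring M, O ≠ ⊤ → Over p O → q ∈ O → f ∈ O ∧ (f ∈ O.nonunits ↔ Ramified p (q : L) O)

/-- The leading coefficients of `f` with respect to `q` agree up to constants at any two valuation
rings of `M` which contain `ℂ(p)` but not `q`. -/
def LeadingConstant (p : L) {M : IntermediateField ℂ L} (f q : M) : Prop :=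
  ∀ O₁ O₂ : ValuationSubring M, Over p O₁ → q ∉ O₁ → Over p O₂ → q ∉ O₂ → SameLeading p f q O₁ O₂

end places

/-- Let `a, b ≥ 2` be coprime, let `a` divide `m, n > 0` and let `F, G` be complex polynomials whose
Newton polygons are the trapezoids `T_{m,n}` and `T_{bm/a,bn/a}` and whose bracket is constant. Let
`P, Q` be `F, G` in one of the two orders and `M` a field between `ℂ(P, Q)` and `L = ℂ(x, y)` which is
`ℂ(x, y)` or different from `ℂ(P, Q)`. Suppose that there is a nonzero `f` in `M` such that, for all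
valuation rings `O ≠ M` of `M` containing `ℂ(P)` and `Q`, one has `f ∈ O`, and `f` is in the maximal
ideal of `O` exactly if `O` is ramified over `ℂ(P, Q)`, and such that the leading coefficients of `f`
with respect to `Q` agree up to constants at any two valuation rings of `M` which contain `ℂ(P)` but
not `Q`. Then `[F, G] = 0`. -/
theorem result (a b m n : ℕ) (hm : 0 < m) (hn : 0 < n) (ham : a ∣ m) (han : a ∣ n)
    (hab : Nat.gcd a b = 1) (ha : 2 ≤ a) (hb : 2 ≤ b)
    (F G : MvPolynomial (Fin 2) ℂ) (h1 : HasTrapezoid F m n) (h4 : HasTrapezoid G (b * m / a) (b * n / a))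
    (h5 : ∃ c : ℂ, pderiv 0 F * pderiv 1 G - pderiv 1 F * pderiv 0 G = C c)
    (P Q : MvPolynomial (Fin 2) ℂ) (hPQ : (P = F ∧ Q = G) ∨ (P = G ∧ Q = F))
    (L : Type) [Field L] [Algebra (MvPolynomial (Fin 2) ℂ) L] [IsFractionRing (MvPolynomial (Fin 2) ℂ) L]
    [Algebra ℂ L] [IsScalarTower ℂ (MvPolynomial (Fin 2) ℂ) L]
    (M : IntermediateField ℂ L) (p : L) (hp : p = algebraMap (MvPolynomial (Fin 2) ℂ) L P) (hpM : p ∈ M)
    (f q : M) (hq : (q : L) = algebraMap (MvPolynomial (Fin 2) ℂ) L Q)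
    (hM : M = ⊤ ∨ M ≠ IntermediateField.adjoin ℂ {p, (q : L)})
    (hf : f ≠ 0) (hfin : ZerosRamified p f q) (hpol : LeadingConstant p f q) :
    pderiv 0 F * pderiv 1 G - pderiv 1 F * pderiv 0 G = 0 := by
  obtain ⟨c, hc⟩ := h5
  by_cases hc0 : c = 0
  · rw [hc, hc0, map_zero]
  exfalso
  have hng := Pool.Agent.R470.Keller.tz_not_good a b m n hm hn ham han hab ha hb F G h1 h4 hc0 hc
  have hJb : ∃ δ : ℂ, δ ≠ 0 ∧ pderiv 0 P * pderiv 1 Q - pderiv 1 P * pderiv 0 Q = C δ := by
    rcases hPQ with ⟨rfl, rfl⟩ | ⟨rfl, rfl⟩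
    · exact ⟨c, hc0, hc⟩
    · refine ⟨-c, neg_ne_zero.2 hc0, ?_⟩
      rw [map_neg, ← hc]; ring
  obtain ⟨δ, hδ, hJ⟩ := hJb
  subst hp
  have hQ : algebraMap (MvPolynomial (Fin 2) ℂ) L Q ∈ M := by rw [← hq]; exact q.2
  obtain rfl : q = ⟨_, hQ⟩ := Subtype.ext hq
  have hle := Pool.Agent.L5helper22.Trap.crit (k := ℂ) (L := L) P Q δ hδ hJ M hpM hQ f hf
    (fun O h6 h7 h8 => ⟨(hfin O h6 h7 h8).1, fun h9 => (hfin O h6 h7 h8).2.1 h9⟩)
    (fun O₁ O₂ h6 h7 h8 h9 r s ρ hr hρ hρ0 hn' => hpol O₁ O₂ h6 h7 h8 h9 r s ρ hr hρ0 hρ hn')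
    (fun O h6 h7 h8 h9 => (hfin O h6 h7 h8).2.2 h9)
  have hge : IntermediateField.adjoin ℂ {algebraMap (MvPolynomial (Fin 2) ℂ) L P,
      algebraMap (MvPolynomial (Fin 2) ℂ) L Q} ≤ M := by
    rw [IntermediateField.adjoin_le_iff]
    rintro z (rfl | hz)
    · exact hpM
    · rw [Set.mem_singleton_iff] at hz; rw [hz]; exact hQ
  rcases hM with hM | hM
  swap
  · exact hM (le_antisymm hle hge)
  have hJu : IsUnit (Pool.Agent.H922R2.jac ![P, Q]).det :=
    Pool.Agent.R470.Keller.det_unit ![P, Q] hδ (by simpa using hJ)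
  have hinv : ∃ G' : Fin 2 → MvPolynomial (Fin 2) ℂ, (∀ j, aeval ![P, Q] (G' j) = X j) ∧
      (∀ j, aeval G' (![P, Q] j) = X j) := by
    apply Pool.Agent.H922R2.inverse_of_top ![P, Q] hJu
    rw [eq_top_iff]
    intro p _
    apply Pool.Agent.H922R2.mem_SS_of_mem_fF L ![P, Q] hJu p
    rw [Pool.Agent.H922R2.fF]
    have h11 : (Set.range fun j => algebraMap (MvPolynomial (Fin 2) ℂ) L (![P, Q] j)) =
        {algebraMap (MvPolynomial (Fin 2) ℂ) L P, algebraMap (MvPolynomial (Fin 2) ℂ) L Q} :=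
      Pool.Agent.Y235.JC.range_two _
    rw [h11]
    apply hle
    rw [hM]; trivial
  obtain ⟨G', hG', -⟩ := hinv
  rcases hPQ with ⟨rfl, rfl⟩ | ⟨rfl, rfl⟩
  · exact hng (Pool.Agent.R470.Keller.good_of_inv ⟨G', hG'⟩)
  · apply hng
    apply Pool.Agent.R470.Keller.good_of_inv
    refine ⟨fun i => rename (Equiv.swap 0 1) (G' i), fun i => ?_⟩
    rw [← hG' i, aeval_rename]
    congr 1
    apply MvPolynomial.algHom_ext
    intro j
    fin_cases j <;> simp

end Pool.Agent.Results.MP_2d59ee_ag.DifferentGenerator
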