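import Pool.Agent.L5helper65.TZ.Comp
import Pool.Agent.Y235.JC.P6
import Pool.Agent.Y235.JC.M3

/-!
# The trapezoid conjecture and intermediate fields

Let `F, G` be a pair of polynomials as in the trapezoid conjecture (conditions 1, 4 and 5). Let `L` and
`H` be polynomial maps of the plane with nonzero constant Jacobian determinants (for instance
automorphisms) and let `f, g` be the components of `L ∘ (F, G) ∘ H`. Let `M` be a field between
`ℂ(f, g)` and `ℂ(x, y)`, different from `ℂ(f, g)` or equal to `ℂ(x, y)`. Then `[F, G] = 0` in the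
following cases.

(1) `M` is rational over `ℂ(f)`: it is generated by `f` and one more element.

(2) `M` is generated over `ℂ(f, g)` by functions `z_1, …, z_r` which satisfy the equations
`Φ_i(f; g, z_1, …, z_r) = 0`, `i = 1, …, r`, of a one-parameter family of complete intersection curves
`Φ_i(u; v, z) = 0` in the affine space of dimension `r + 1`; the curves are smooth for all but finitely
many `u`, and they have the same points at infinity (in a weighted projective space) for all `u`, which
are simple and away from `v = 0`.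

The theorems on plane Keller maps from which this is deduced are in the starting library
(`Pool.Agent.Y235.JC.M2`, `Pool.Agent.Y235.JC.P6`, not handed in before); the conditions on the family
are stated there with ideals.
-/

set_option autoImplicit false

open MvPolynomial Pool.Agent.L5helper65.TZ

namespace Pool.Agent.Results.MP_2d59ee_ag.IntermediateFields

/-- The polynomial `p` over `ℂ[U]` at the parameter value `U = u`. -/
noncomputable def atParam {σ : Type} (u : ℂ) (p : MvPolynomial σ (Polynomial ℂ)) : MvPolynomial σ ℂ :=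
  map (Polynomial.evalRingHom u) p

/-- A family of affine curves with parameter `U`, complete intersections in the space with the
coordinates `V` (index `none`) and `Z_1, …, Z_r` (indices `some j`). -/
structure CurveFamily (r : ℕ) where
  /-- positive weights of the coordinates -/
  weight : Option (Fin r) → ℕ
  weight_pos : ∀ o, 0 < weight o
  /-- the weighted degrees of the equations -/
  degree : Fin r → ℕ
  /-- the equations, with coefficients in `ℂ[U]` -/
  eqn : Fin r → MvPolynomial (Option (Fin r)) (Polynomial ℂ)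
  /-- the top forms, without the parameter -/
  top : Fin r → MvPolynomial (Option (Fin r)) ℂ
  /-- the coefficients of the top forms -/
  lead : Fin r → Polynomial ℂ
  lead_ne : ∀ i, lead i ≠ 0
  top_homogeneous : ∀ i, IsWeightedHomogeneous weight (top i) (degree i)
  /-- `eqn i` is `lead i (U) · top i (V, Z)` and terms of smaller weight -/
  lower : ∀ i, ∀ m ∈ (eqn i - C (lead i) * map Polynomial.C (top i)).support,
    Finsupp.weight weight m < degree i
  /-- there are no points at infinity with `V = 0` -/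
  infinity : ∀ P : Option (Fin r) → ℂ, (∀ i, eval P (top i) = 0) → P none = 0 → P = 0
  /-- the points at infinity are simple -/
  simple : ∀ P : Option (Fin r) → ℂ, (∀ i, eval P (top i) = 0) →
    eval P (Matrix.det (Matrix.of fun i j => pderiv (some j) (top i))) = 0 → P none = 0
  /-- for all but finitely many parameters `u` the Jacobian matrix has rank `r` at all points of the
  curve -/
  smooth : ∃ S : Finset ℂ, ∀ u : ℂ, u ∉ S → ∀ P : Option (Fin r) → ℂ,
    (∀ i, eval P (atParam u (eqn i)) = 0) → ∃ e : Fin r → Option (Fin r),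
      eval P (Matrix.det (Matrix.of fun i j => pderiv (e j) (atParam u (eqn i)))) ≠ 0

/-- The value of `p` at `U = f`, `V = g`, `Z = z`. -/
noncomputable def value {r : ℕ} (f g : P2) (z : Fin r → K2)
    (p : MvPolynomial (Option (Fin r)) (Polynomial ℂ)) : K2 :=
  eval₂ ((algebraMap P2 K2).comp (Polynomial.eval₂RingHom C f)) (fun o => o.elim (toK g) z) p

section nullstellensatz

theorem mem_radical_of_zero {σ : Type} [Finite σ] (S : Set (MvPolynomial σ ℂ)) (p : MvPolynomial σ ℂ)
    (h : ∀ x : σ → ℂ, (∀ q ∈ S, eval x q = 0) → eval x p = 0) :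
    ∃ n : ℕ, p ^ n ∈ Ideal.span S := by
  have h1 : p ∈ (Ideal.span S).radical := by
    rw [← MvPolynomial.vanishingIdeal_zeroLocus_eq_radical (K := ℂ), mem_vanishingIdeal_iff]
    intro x hx
    rw [mem_zeroLocus_iff] at hx
    have := h x fun q hq => by
      have := hx q (Ideal.subset_span hq)
      rwa [← MvPolynomial.coe_aeval_eq_eval]
    rwa [← MvPolynomial.coe_aeval_eq_eval] at this
  exact h1

theorem eval_equiv {σ : Type} (x : Option σ → ℂ) (q : MvPolynomial σ (Polynomial ℂ)) :
    eval x ((optionEquivRight ℂ σ).symm q) = eval (fun o => x (some o)) (atParam (x none) q) := by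
  have h : (eval x : MvPolynomial (Option σ) ℂ →+* ℂ) =
      ((eval (fun o => x (some o))).comp (map (Polynomial.evalRingHom (x none)))).comp
        ((optionEquivRight ℂ σ : MvPolynomial (Option σ) ℂ ≃ₐ[ℂ] _) : _ →+* _) := by
    apply MvPolynomial.ringHom_ext
    · intro a
      simp
    · intro o
      cases o with
      | none => simp
      | some j => simp
  have h1 := congrArg (fun φ => φ ((optionEquivRight ℂ σ).symm q)) h
  simp only [RingHom.comp_apply, RingHom.coe_coe, AlgEquiv.apply_symm_apply] at h1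
  exact h1

theorem mem_param {σ : Type} [Finite σ] (S : Set (MvPolynomial σ (Polynomial ℂ))) (T : Finset ℂ)
    (h : ∀ u : ℂ, u ∉ T → ∀ P : σ → ℂ, ∃ q ∈ S, eval P (atParam u q) ≠ 0) :
    ∃ s : Polynomial ℂ, s ≠ 0 ∧ (C s : MvPolynomial σ (Polynomial ℂ)) ∈ Ideal.span S := by
  set s : Polynomial ℂ := ∏ u ∈ T, (Polynomial.X - Polynomial.C u) with hs
  have hs0 : s ≠ 0 := Finset.prod_ne_zero_iff.2 fun u _ => Polynomial.X_sub_C_ne_zero u
  obtain ⟨n, hn⟩ := mem_radical_of_zero ((optionEquivRight ℂ σ).symm '' S)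
    ((optionEquivRight ℂ σ).symm (C s)) (by
      intro x hx
      rw [eval_equiv]
      by_cases hu : x none ∈ T
      · have : s.eval (x none) = 0 := by
          rw [hs, Polynomial.eval_prod]
          exact Finset.prod_eq_zero hu (by simp)
        simp [atParam, this]
      · exfalso
        obtain ⟨q, hq, hne⟩ := h _ hu fun o => x (some o)
        apply hne
        rw [← eval_equiv]
        exact hx _ ⟨q, hq, rfl⟩)
  refine ⟨s ^ n, pow_ne_zero _ hs0, ?_⟩
  rw [map_pow]
  rw [← map_pow] at hn
  have h2 := Ideal.mem_map_of_mem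
    (((optionEquivRight ℂ σ : MvPolynomial (Option σ) ℂ ≃ₐ[ℂ] _) : _ →+* MvPolynomial σ (Polynomial ℂ)))
    hn
  rw [Ideal.map_span] at h2
  have h3 : (((optionEquivRight ℂ σ : MvPolynomial (Option σ) ℂ ≃ₐ[ℂ] _) :
      _ →+* MvPolynomial σ (Polynomial ℂ)) : _ → _) '' ((optionEquivRight ℂ σ).symm '' S) = S := by
    rw [← Set.image_comp]
    convert Set.image_id S using 1
    apply Set.image_congr
    intro q _
    exact AlgEquiv.apply_symm_apply _ _
  rw [h3] at h2
  have h5 : (((optionEquivRight ℂ σ : MvPolynomial (Option σ) ℂ ≃ₐ[ℂ] _) :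
      _ →+* MvPolynomial σ (Polynomial ℂ))) ((optionEquivRight ℂ σ).symm (C s ^ n)) = C s ^ n :=
    AlgEquiv.apply_symm_apply _ _
  rw [h5] at h2
  exact h2

end nullstellensatz

/-- The family in the form of the library. -/
noncomputable def CurveFamily.toCI {r : ℕ} (D : CurveFamily r) : Pool.Agent.Y235.JC.CI ℂ r where
  w := D.weight
  hw := D.weight_pos
  d := D.degree
  Φ := D.eqn
  Φ0 := D.top
  c := D.lead
  hc := D.lead_ne
  hΦ0 := D.top_homogeneous
  htop := by
    intro i m hm
    have := D.lower i m hm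
    have h2 : ((Finsupp.weight D.weight m : ℕ) : ℤ) < D.degree i := by exact_mod_cast this
    omega
  h2 := by
    intro j
    apply mem_radical_of_zero
    intro x hx
    have h1 := D.infinity x (fun i => hx _ ⟨some i, rfl⟩) (by
      have := hx _ ⟨none, rfl⟩
      simpa using this)
    rw [h1]
    simp
  h3 := by
    apply mem_radical_of_zero
    intro x hx
    have h1 := D.simple x (fun i => hx _ ⟨some i, rfl⟩) (hx _ ⟨none, rfl⟩)
    simpa using h1
  h4 := by
    obtain ⟨S, hS⟩ := D.smooth
    apply mem_param _ S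
    intro u hu P
    by_contra hcon
    push Not at hcon
    obtain ⟨e, he⟩ := hS u hu P fun i => hcon _ (Or.inl ⟨i, rfl⟩)
    apply he
    have h1 := hcon _ (Or.inr ⟨e, rfl⟩)
    rw [← h1]
    have h3 : atParam u (Matrix.det (Matrix.of fun i j => pderiv (e j) (D.eqn i))) =
        Matrix.det (Matrix.of fun i j => pderiv (e j) (atParam u (D.eqn i))) := by
      unfold atParam
      rw [RingHom.map_det]
      refine congrArg Matrix.det (Matrix.ext fun i j => ?_)
      exact (pderiv_map).symm
    rw [h3]

/-- `M` is generated over `ℂ(f, g)` by functions which satisfy the equations of a family of curves for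
`U = f`, `V = g`. -/
def GeneratedByCurves (f g : P2) (M : IntermediateField ℂ K2) : Prop :=
  ∃ (r : ℕ) (D : CurveFamily r) (z : Fin r → K2), (∀ i, value f g z (D.eqn i) = 0) ∧
    M = IntermediateField.adjoin ℂ ({toK f, toK g} ∪ Set.range z)

theorem range_pair (f g : P2) :
    Set.range (fun j => algebraMap P2 K2 ((![f, g] : Fin 2 → P2) j)) = {toK f, toK g} := by
  ext x
  simp only [Set.mem_range, Fin.exists_fin_two, Set.mem_insert_iff, Set.mem_singleton_iff,
    Matrix.cons_val_zero, Matrix.cons_val_one]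
  constructor
  · rintro (h | h)
    · exact Or.inl h.symm
    · exact Or.inr h.symm
  · rintro (h | h)
    · exact Or.inl h.symm
    · exact Or.inr h.symm

/-- The two cases for a map which is not an automorphism. -/
theorem key {f g : P2} (hK : Keller ![f, g]) (hng : ¬ Pool.Agent.H938R2.JC.Good f g)
    (M : IntermediateField ℂ K2) (hfM : toK f ∈ M) (hgM : toK g ∈ M)
    (hcase : (∃ T : K2, M = IntermediateField.adjoin ℂ {toK f, T}) ∨ GeneratedByCurves f g M) :
    M = IntermediateField.adjoin ℂ {toK f, toK g} ∧ M ≠ ⊤ := by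
  have hJ : IsUnit (Matrix.det (Pool.Agent.H922R2.jac ![f, g])) := hK.unit
  have h0 : IntermediateField.adjoin ℂ {toK f, toK g} ≤ M := by
    rw [IntermediateField.adjoin_le_iff]
    rintro z (rfl | rfl)
    · exact hfM
    · exact hgM
  have h2 : M = IntermediateField.adjoin ℂ {toK f, toK g} := by
    apply le_antisymm _ h0
    rcases hcase with ⟨T, hT⟩ | ⟨r, D, z, hz, hM⟩
    · have h1 : T ∈ IntermediateField.adjoin ℂ {toK f, toK g} :=
        Pool.Agent.Y235.JC.RM_any ![f, g] hJ T (by rw [hT] at hgM; exact hgM)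
      rw [hT, IntermediateField.adjoin_le_iff]
      rintro z (rfl | rfl)
      · exact IntermediateField.subset_adjoin _ _ (Or.inl rfl)
      · exact h1
    · obtain ⟨k1, -⟩ := Pool.Agent.Y235.JC.CI_field ![f, g] hJ D.toCI z hz
      rw [range_pair] at k1
      rw [hM, IntermediateField.adjoin_le_iff]
      rintro x (hx | ⟨j, rfl⟩)
      · exact IntermediateField.subset_adjoin _ _ hx
      · exact k1 j
  refine ⟨h2, fun htop => hng ?_⟩
  have hSS : Pool.Agent.H922R2.SS ![f, g] = ⊤ := by
    rw [eq_top_iff]
    intro r _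
    apply Pool.Agent.H922R2.mem_SS_of_mem_fF K2 ![f, g] hJ r
    rw [Pool.Agent.H922R2.fF, range_pair, ← h2, htop]
    trivial
  obtain ⟨Q, hQ, -⟩ := Pool.Agent.H922R2.inverse_of_top ![f, g] hJ hSS
  exact Pool.Agent.R470.Keller.good_of_inv ⟨Q, hQ⟩

/-- Let `a, b ≥ 2` be coprime, let `a` divide `m, n > 0` and let `F, G` be complex polynomials whose
Newton polygons are the trapezoids `T_{m,n}` and `T_{bm/a,bn/a}` and whose bracket is constant. Let
`L` and `H` be polynomial maps of the plane whose Jacobian determinants are nonzero constants, and let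
`f, g` be the components of the map `L ∘ (F, G) ∘ H`. Let `M` be a field between `ℂ(f, g)` and
`ℂ(x, y)`, different from `ℂ(f, g)` or equal to `ℂ(x, y)`. If `M` is generated by `f` and one more
element, or is generated over `ℂ(f, g)` by functions which satisfy the equations of a family of
complete intersection curves, then `[F, G] = 0`. -/
theorem result (a b m n : ℕ) (hm : 0 < m) (hn : 0 < n) (ham : a ∣ m) (han : a ∣ n)
    (hab : Nat.gcd a b = 1) (ha : 2 ≤ a) (hb : 2 ≤ b)
    (F G : MvPolynomial (Fin 2) ℂ)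
    (h1 : convexHull ℝ (insert ((0:ℝ), (0:ℝ))
        ((fun d : Fin 2 →₀ ℕ => ((d 0 : ℝ), (d 1 : ℝ))) '' (↑F.support : Set (Fin 2 →₀ ℕ))))
        = {p : ℝ × ℝ | 0 ≤ p.2 ∧ p.2 ≤ (n : ℝ) ∧ 0 ≤ p.1 ∧ p.1 ≤ (m : ℝ) + (n : ℝ) - p.2})
    (h4 : convexHull ℝ (insert ((0:ℝ), (0:ℝ))
        ((fun d : Fin 2 →₀ ℕ => ((d 0 : ℝ), (d 1 : ℝ))) '' (↑G.support : Set (Fin 2 →₀ ℕ))))
        = {p : ℝ × ℝ | 0 ≤ p.2 ∧ p.2 ≤ ((b * n / a : ℕ) : ℝ) ∧ 0 ≤ p.1 ∧
            p.1 ≤ ((b * m / a : ℕ) : ℝ) + ((b * n / a : ℕ) : ℝ) - p.2})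
    (h5 : ∃ c : ℂ, pderiv 0 F * pderiv 1 G - pderiv 1 F * pderiv 0 G = C c)
    (L H : Fin 2 → P2) (hL : Keller L) (hH : Keller H)
    (f g : P2) (hf : f = comp L (comp ![F, G] H) 0) (hg : g = comp L (comp ![F, G] H) 1)
    (M : IntermediateField ℂ K2) (hfM : toK f ∈ M) (hgM : toK g ∈ M)
    (hM : M ≠ IntermediateField.adjoin ℂ {toK f, toK g} ∨ M = ⊤)
    (hcase : (∃ T : K2, M = IntermediateField.adjoin ℂ {toK f, T}) ∨ GeneratedByCurves f g M) :
    pderiv 0 F * pderiv 1 G - pderiv 1 F * pderiv 0 G = 0 := by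
  obtain ⟨c, hc⟩ := h5
  by_cases hc0 : c = 0
  · rw [hc, hc0, map_zero]
  exfalso
  obtain ⟨hK, hb0, -⟩ := bad_comp a b m n hm hn ham han hab ha hb F G h1 h4 hc0 hc L H hL hH
  have hW : comp L (comp ![F, G] H) = ![f, g] := by
    rw [hf, hg]
    funext i; fin_cases i <;> rfl
  rw [← hf, ← hg] at hb0
  rw [hW] at hK
  obtain ⟨k1, k2⟩ := key hK hb0.2 M hfM hgM hcase
  rcases hM with h | h
  · exact h k1
  · exact k2 h

end Pool.Agent.Results.MP_2d59ee_ag.IntermediateFields
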