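import Pool.Agent.L5helper65.TZ.Comp
import Pool.Agent.W443.J6.Asm
import Pool.Agent.W443.J6.T4

/-!
# The trapezoid conjecture and partial degrees

Let `F, G` be a pair of polynomials as in the trapezoid conjecture (conditions 1, 4 and 5). Let `L` and
`H` be polynomial maps of the plane with nonzero constant Jacobian determinants (for instance
automorphisms) and let `f, g` be the components of `L ∘ (F, G) ∘ H`. If the greatest common divisor of
the `x`-degrees of `f` and `g` is at most three, or if all proper divisors of the `x`-degree of `f` or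
`g` are at most three (for instance if it is a prime number or `4`, `6` or `9`), or if the exponents of
the lexicographically leading monomials `x ^ p y ^ q` of `f` and `x ^ r y ^ s` of `g` have no common
divisor, then `[F, G] = 0`.

The theorems on plane Keller maps from which this is deduced are in the starting library
(`Pool.Agent.W443.J6.Asm`, `Pool.Agent.W443.J6.T4`, not handed in before).
-/

set_option autoImplicit false

open MvPolynomial Pool.Agent.L5helper65.TZ

namespace Pool.Agent.Results.MP_2d59ee_ag.SmallPartialDegrees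

/-- `x ^ p y ^ q` is the lexicographically leading monomial of `f`: it occurs in `f`, and all
monomials `x ^ i y ^ j` of `f` have `i < p` or `i = p`, `j ≤ q`. -/
def LexLeading (p q : ℕ) (f : P2) : Prop :=
  (∃ d ∈ f.support, d 0 = p ∧ d 1 = q) ∧ ∀ d ∈ f.support, d 0 < p ∨ (d 0 = p ∧ d 1 ≤ q)

/-- The condition on the components `f, g` of the map. -/
def SmallDegrees (f g : P2) : Prop :=
  Nat.gcd (degreeOf 0 f) (degreeOf 0 g) ≤ 3 ∨
  (∀ d, d ∣ degreeOf 0 f → d < degreeOf 0 f → d ≤ 3) ∨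
  (∀ d, d ∣ degreeOf 0 g → d < degreeOf 0 g → d ≤ 3) ∨
  (∃ p q r s : ℕ, LexLeading p q f ∧ LexLeading r s g ∧
    Nat.gcd (Nat.gcd p q) (Nat.gcd r s) = 1)

theorem upp_of_lex {p q : ℕ} {f : P2} (h : LexLeading p q f) : Pool.Agent.W443.J6.Upp 1 0 p q f := by
  obtain ⟨⟨d, hd, h0, h1⟩, h2⟩ := h
  refine ⟨?_, fun m hm => ?_⟩
  · have : Pool.Agent.H938R2.JC.e p q = d := by
      rw [Pool.Agent.H938R2.JC.ext_iff']
      simp [h0, h1]
    rw [this]
    exact mem_support_iff.1 hd
  · rcases h2 m (mem_support_iff.2 hm) with h3 | ⟨h3, h4⟩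
    · left
      have : (m 0 : ℤ) < p := by exact_mod_cast h3
      linarith
    · right
      refine ⟨by rw [h3]; ring, h4⟩

theorem not_small {f g : P2} (h : Pool.Agent.W443.J6.Bad f g) (h' : Pool.Agent.W443.J6.Bad g f) :
    ¬ SmallDegrees f g := by
  obtain ⟨⟨c, hc, hJ⟩, hng⟩ := h
  obtain ⟨⟨c', hc', hJ'⟩, hng'⟩ := h'
  rintro (h1 | h1 | h1 | ⟨p, q, r, s, h1, h2, h3⟩)
  · exact hng (Pool.Agent.W443.J6.Asm.main ℂ f g c hc hJ (Or.inl h1))
  · exact hng (Pool.Agent.W443.J6.Asm.main ℂ f g c hc hJ (Or.inr h1))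
  · exact hng' (Pool.Agent.W443.J6.Asm.main ℂ g f c' hc' hJ' (Or.inr h1))
  · exact hng (Pool.Agent.W443.J6.copl' ℂ f g c hc hJ p q r s h3 (upp_of_lex h1) (upp_of_lex h2))

/-- Let `a, b ≥ 2` be coprime, let `a` divide `m, n > 0` and let `F, G` be complex polynomials whose
Newton polygons are the trapezoids `T_{m,n}` and `T_{bm/a,bn/a}` and whose bracket is constant. Let
`L` and `H` be polynomial maps of the plane whose Jacobian determinants are nonzero constants, and let
`f, g` be the components of the map `L ∘ (F, G) ∘ H`. If the greatest common divisor of the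
`x`-degrees of `f` and `g` is at most three, or all proper divisors of one of them are at most three,
or the exponents of the two lexicographically leading monomials have no common divisor, then
`[F, G] = 0`. -/
theorem result (a b m n : ℕ) (hm : 0 < m) (hn : 0 < n) (ham : a ∣ m) (han : a ∣ n)
    (hab : Nat.gcd a b = 1) (ha : 2 ≤ a) (hb : 2 ≤ b)
    (F G : MvPolynomial (Fin 2) ℂ)
    (h1 : convexHull ℝ (insert ((0:ℝ), (0:ℝ))
        ((fun d : Fin 2 →₀ ℕ => ((d 0 : ℝ), (d 1 : ℝ))) '' (↑F.support : Set (Fin 2 →₀ ℕ))))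
        = {p : ℝ × ℝ | 0 ≤ p.2 ∧ p.2 ≤ (n : ℝ) ∧ 0 ≤ p.1 ∧ p.1 ≤ (m : ℝ) + (n : ℝ) - p.2})
    (h4 : convexHull ℝ (insert ((0:ℝ), (0:ℝ))
        ((fun d : Fin 2 →₀ ℕ => ((d 0 : ℝ), (d 1 : ℝ))) '' (↑G.support : Set (Fin 2 →₀ ℕ))))
        = {p : ℝ × ℝ | 0 ≤ p.2 ∧ p.2 ≤ ((b * n / a : ℕ) : ℝ) ∧ 0 ≤ p.1 ∧
            p.1 ≤ ((b * m / a : ℕ) : ℝ) + ((b * n / a : ℕ) : ℝ) - p.2})
    (h5 : ∃ c : ℂ, pderiv 0 F * pderiv 1 G - pderiv 1 F * pderiv 0 G = C c)
    (L H : Fin 2 → P2) (hL : Keller L) (hH : Keller H)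
    (hs : SmallDegrees (comp L (comp ![F, G] H) 0) (comp L (comp ![F, G] H) 1)) :
    pderiv 0 F * pderiv 1 G - pderiv 1 F * pderiv 0 G = 0 := by
  obtain ⟨c, hc⟩ := h5
  by_cases hc0 : c = 0
  · rw [hc, hc0, map_zero]
  exfalso
  obtain ⟨-, hb0, hb1⟩ := bad_comp a b m n hm hn ham han hab ha hb F G h1 h4 hc0 hc L H hL hH
  exact not_small hb0 hb1 hs

end Pool.Agent.Results.MP_2d59ee_ag.SmallPartialDegrees
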