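import Pool.Agent.L5helper65.TZ.Comp
import Pool.Agent.TH207.Desc
import Pool.Agent.H938R2.JC.TwoPieces

/-!
# The trapezoid conjecture and sparse components

Let `F, G` be a pair of polynomials as in the trapezoid conjecture (conditions 1, 4 and 5). Let `L` and
`H` be polynomial maps of the plane with nonzero constant Jacobian determinants (for instance
automorphisms). If a component of `L ∘ (F, G) ∘ H` is sparse, then `[F, G] = 0`. Here a polynomial is
sparse if it has at most seven nonconstant monomials, or if at most five different exponents of `x`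
(or of `y`) occur in it, or if for some weights `u, v ≥ 0` its monomials have at most four different
weights other than `0` and `min (u, v)`, or if its nonconstant monomials lie on two parallel lines.

The theorems on components of plane Keller maps from which this is deduced are in the starting
library (`Pool.Agent.TH207.Cnt`, `Pool.Agent.TH207.Desc`, `Pool.Agent.H938R2.JC.TwoPieces`, not handed
in before).
-/

set_option autoImplicit false

open MvPolynomial Pool.Agent.L5helper65.TZ

namespace Pool.Agent.Results.MP_2d59ee_ag.SparseComponents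

/-- `p` is sparse: it has at most seven nonconstant monomials, or at most five different exponents of
one of the variables, or at most four different weights other than `0` and `min u v` for some weights
`u, v ≥ 0` (not both `0`) of the variables, or its nonconstant monomials lie on two parallel lines
`u i + v j = α` and `u i + v j = β` (`u, v` integers of any sign). -/
def Sparse (p : P2) : Prop :=
  (p.support.erase 0).card ≤ 7 ∨
  (∃ j : Fin 2, (p.support.image fun d => d j).card ≤ 5) ∨
  (∃ u v : ℕ, 0 < u + v ∧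
    ((p.support.image fun d => u * d 0 + v * d 1) \ {0, min u v}).card ≤ 4) ∨
  (∃ u v α β : ℤ, (u ≠ 0 ∨ v ≠ 0) ∧ ∀ d ∈ p.support, d ≠ 0 →
    u * (d 0 : ℤ) + v * (d 1 : ℤ) = α ∨ u * (d 0 : ℤ) + v * (d 1 : ℤ) = β)

theorem not_sparse {p q : P2} (h : Pool.Agent.W443.J6.Bad p q) : ¬ Sparse p := by
  rintro (h1 | ⟨j, h1⟩ | ⟨u, v, huv, h1⟩ | ⟨u, v, α, β, huv, h1⟩)
  · have := Pool.Agent.TH207.eight h
    omega
  · fin_cases j
    · have := Pool.Agent.TH207.count_x h
      simp only [Fin.zero_eta] at h1
      omega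
    · have h2 := Pool.Agent.TH207.count_x (Pool.Agent.TH207.bad_sw h)
      have h3 : ((Pool.Agent.H938R2.JC.sw p).support.image fun m => m 0) =
          (p.support.image fun m => m 1) := by
        ext d
        simp only [Finset.mem_image, mem_support_iff]
        constructor
        · rintro ⟨m, hm, rfl⟩
          rw [Pool.Agent.H938R2.JC.eq_e m, Pool.Agent.H938R2.JC.coeff_sw] at hm
          exact ⟨_, hm, by simp⟩
        · rintro ⟨m, hm, rfl⟩
          refine ⟨Pool.Agent.H938R2.JC.e (m 1) (m 0), ?_, by simp⟩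
          rw [Pool.Agent.H938R2.JC.coeff_sw, ← Pool.Agent.H938R2.JC.eq_e]
          exact hm
      rw [h3] at h2
      simp only [Fin.mk_one] at h1
      omega
  · have h2 := Pool.Agent.TH207.count' h (w0 := u) (w1 := v) (by omega)
    have h3 : Pool.Agent.TH207.Wts u v p = p.support.image fun d => u * d 0 + v * d 1 := rfl
    rw [h3] at h2
    omega
  · obtain ⟨⟨c, hc, hJ⟩, hng⟩ := h
    refine hng (Pool.Agent.H938R2.JC.two_pieces hJ hc huv α β ?_)
    intro m hm h0
    exact h1 m (mem_support_iff.2 hm) h0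

/-- Let `a, b ≥ 2` be coprime, let `a` divide `m, n > 0` and let `F, G` be complex polynomials whose
Newton polygons are the trapezoids `T_{m,n}` and `T_{bm/a,bn/a}` and whose bracket is constant. Let
`L` and `H` be polynomial maps of the plane whose Jacobian determinants are nonzero constants. If one
of the two components of the map `L ∘ (F, G) ∘ H` is sparse, then `[F, G] = 0`. -/
theorem result (a b m n : ℕ) (hm : 0 < m) (hn : 0 < n) (ham : a ∣ m) (han : a ∣ n)
    (hab : Nat.gcd a b = 1) (ha : 2 ≤ a) (hb : 2 ≤ b)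
    (F G : MvPolynomial (Fin 2) ℂ)
    (h1 : convexHull ℝ (insert ((0:ℝ), (0:ℝ))
        ((fun d : Fin 2 →₀ ℕ => ((d 0 : ℝ), (d 1 : ℝ))) '' (↑F.support : Set (Fin 2 →₀ ℕ))))
        = {p : ℝ × ℝ | 0 ≤ p.2 ∧ p.2 ≤ (n : ℝ) ∧ 0 ≤ p.1 ∧ p.1 ≤ (m : ℝ) + (n : ℝ) - p.2})
    (h4 : convexHull ℝ (insert ((0:ℝ), (0:ℝ))
        ((fun d : Fin 2 →₀ ℕ => ((d 0 : ℝ), (d 1 : ℝ))) '' (↑G.support : Set (Fin 2 →₀ ℕ))))
        = {p : ℝ × ℝ | 0 ≤ p.2 ∧ p.2 ≤ ((b * n / a : ℕ) : ℝ) ∧ 0 ≤ p.1 ∧
            p.1 ≤ ((b * m / a : ℕ) : ℝ) + ((b * n / a : ℕ) : ℝ) - p.2})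
    (h5 : ∃ c : ℂ, pderiv 0 F * pderiv 1 G - pderiv 1 F * pderiv 0 G = C c)
    (L H : Fin 2 → P2) (hL : Keller L) (hH : Keller H)
    (i : Fin 2) (hs : Sparse (comp L (comp ![F, G] H) i)) :
    pderiv 0 F * pderiv 1 G - pderiv 1 F * pderiv 0 G = 0 := by
  obtain ⟨c, hc⟩ := h5
  by_cases hc0 : c = 0
  · rw [hc, hc0, map_zero]
  exfalso
  obtain ⟨-, hb0, hb1⟩ := bad_comp a b m n hm hn ham han hab ha hb F G h1 h4 hc0 hc L H hL hH
  fin_cases i
  · exact not_sparse hb0 hs
  · exact not_sparse hb1 hs

end Pool.Agent.Results.MP_2d59ee_ag.SparseComponents
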